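import Pool.Agent.Helper31.BQ.Stmts2

/-! # Row PE (MP_04557e_an, part B): the subspaces `M n` of `EE` -/

set_option autoImplicit false

namespace Pool.Agent.Helper76.BQ

open Filter Topology Pool.Agent.Helper31.BQ

namespace PE76

section
variable {H : Type} [NormedAddCommGroup H]

theorem norm_cd_le [InnerProductSpace ℝ H] (x : WW H) (k : ℕ) (g : GG k) : ‖cd x k g‖ ≤ ‖x‖ :=
  (norm_le_pi_norm ((x : ∀ k, GG k → H) k) g).trans
    (lp.norm_apply_le_norm (by norm_num) x k)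

theorem sum_le (x : WW H) (s : Finset ℕ) :
    ∑ k ∈ s, ‖(x : ∀ k, GG k → H) k‖ ^ 2 ≤ ‖x‖ ^ 2 := by
  have h := lp.sum_rpow_le_norm_rpow (p := 2) (by norm_num) x s
  simpa [ENNReal.toReal_ofNat] using h

theorem has_sum (x : WW H) : HasSum (fun k => ‖(x : ∀ k, GG k → H) k‖ ^ 2) (‖x‖ ^ 2) := by
  have h := lp.hasSum_norm (p := 2) (by norm_num) x
  simpa [ENNReal.toReal_ofNat] using h
end

section
variable {H : Type} [NormedAddCommGroup H] [InnerProductSpace ℝ H]

/-- coordinates -/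
noncomputable def cl (k : ℕ) (g : GG k) : WW H →L[ℝ] H :=
  LinearMap.mkContinuous
    { toFun := fun x => cd x k g
      map_add' := fun x y => by simp [cd]
      map_smul' := fun c x => by simp [cd] } 1
    (fun x => by
      rw [one_mul]
      exact norm_cd_le x k g)

theorem cl_apply (x : WW H) (k : ℕ) (g : GG k) : cl k g x = cd x k g := rfl

/-- the map with kernel `M n` -/
noncomputable def Lm (p : ℕ → H →L[ℝ] H) (J : ℕ → H →L[ℝ] H)
    (σ : ∀ k, Fin (2 ^ k) → GG k → ℝ) (τ : ∀ k, Fin (2 ^ (k + 1)) → GG k → ℝ) (n : ℕ) :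
    EE J σ τ →ₗ[ℝ] ((k : Fin n) → GG (k : ℕ) → LinearMap.range (p n : H →ₗ[ℝ] H)) :=
  LinearMap.pi fun k => LinearMap.pi fun g =>
    ((p n : H →ₗ[ℝ] H).rangeRestrict ∘ₗ (cl (H := H) (k : ℕ) g).toLinearMap) ∘ₗ (EE J σ τ).subtype

theorem Lm_apply (p : ℕ → H →L[ℝ] H) (J : ℕ → H →L[ℝ] H)
    (σ : ∀ k, Fin (2 ^ k) → GG k → ℝ) (τ : ∀ k, Fin (2 ^ (k + 1)) → GG k → ℝ) (n : ℕ)
    (x : EE J σ τ) (k : Fin n) (g : GG (k : ℕ)) :
    (Lm p J σ τ n x k g : H) = p n (cd (x : WW H) k g) := rfl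

theorem Lm_cont (p : ℕ → H →L[ℝ] H) (J : ℕ → H →L[ℝ] H)
    (σ : ∀ k, Fin (2 ^ k) → GG k → ℝ) (τ : ∀ k, Fin (2 ^ (k + 1)) → GG k → ℝ) (n : ℕ) :
    Continuous (Lm p J σ τ n) := by
  refine continuous_pi fun k => continuous_pi fun g => ?_
  refine Continuous.subtype_mk (f := fun x : EE J σ τ => p n (cl (k : ℕ) g (x : WW H))) ?_ _
  exact (p n).continuous.comp ((cl (k : ℕ) g).continuous.comp continuous_subtype_val)

theorem mem_kerL (p : ℕ → H →L[ℝ] H) (J : ℕ → H →L[ℝ] H)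
    (σ : ∀ k, Fin (2 ^ k) → GG k → ℝ) (τ : ∀ k, Fin (2 ^ (k + 1)) → GG k → ℝ) (n : ℕ)
    (x : EE J σ τ) : x ∈ LinearMap.ker (Lm p J σ τ n) ↔
      ∀ k, k < n → ∀ g, p n (cd (x : WW H) k g) = 0 := by
  rw [LinearMap.mem_ker]
  constructor
  · intro h k hk g
    have h1 := congrFun (congrFun h ⟨k, hk⟩) g
    have h2 := congrArg Subtype.val h1
    exact h2
  · intro h
    funext k g
    apply Subtype.ext
    exact h k k.2 g

/-- norms of the compressed coordinates -/
theorem pi_norm_le (P : H →L[ℝ] H) (hP : ‖P‖ ≤ 1) {k : ℕ} (f : GG k → H) :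
    ‖fun g => P (f g)‖ ≤ ‖f‖ := by
  rw [pi_norm_le_iff_of_nonneg (norm_nonneg _)]
  intro g
  calc ‖P (f g)‖ ≤ ‖P‖ * ‖f g‖ := P.le_opNorm _
    _ ≤ 1 * ‖f g‖ := mul_le_mul_of_nonneg_right hP (norm_nonneg _)
    _ = ‖f g‖ := one_mul _
    _ ≤ ‖f‖ := norm_le_pi_norm f g

theorem norming (p : ℕ → H →L[ℝ] H) (hp1 : ∀ n, ‖p n‖ ≤ 1)
    (hp : ∀ x, Tendsto (fun n => p n x) atTop (𝓝 x)) (J : ℕ → H →L[ℝ] H)
    (σ : ∀ k, Fin (2 ^ k) → GG k → ℝ) (τ : ∀ k, Fin (2 ^ (k + 1)) → GG k → ℝ)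
    (x : EE J σ τ) (ε : ℝ) (hε : 0 < ε) : ∃ n, ∀ y : EE J σ τ,
      x - y ∈ LinearMap.ker (Lm p J σ τ n) → ‖x‖ - ε ≤ ‖y‖ := by
  have h1 := (has_sum (x : WW H)).tendsto_sum_nat
  have h2 := h1.sqrt
  rw [Real.sqrt_sq (norm_nonneg _)] at h2
  obtain ⟨K, hK⟩ := (h2.eventually (lt_mem_nhds (show ‖(x : WW H)‖ - ε / 2 < ‖(x : WW H)‖ by
    linarith))).exists
  have h3 : Tendsto (fun n => Real.sqrt (∑ k ∈ Finset.range K,
      ‖(fun g => p n (cd (x : WW H) k g) : GG k → H)‖ ^ 2)) atTop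
      (𝓝 (Real.sqrt (∑ k ∈ Finset.range K, ‖((x : WW H) : ∀ k, GG k → H) k‖ ^ 2))) := by
    apply Tendsto.sqrt
    apply tendsto_finsetSum
    intro k _
    apply Tendsto.pow
    apply Tendsto.norm
    rw [tendsto_pi_nhds]
    intro g
    exact hp _
  obtain ⟨n, hn, hnK⟩ := ((h3.eventually (lt_mem_nhds (show ‖(x : WW H)‖ - ε <
    Real.sqrt (∑ k ∈ Finset.range K, ‖((x : WW H) : ∀ k, GG k → H) k‖ ^ 2) by linarith))).and
    (eventually_ge_atTop K)).exists
  refine ⟨n, fun y hy => ?_⟩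
  rw [mem_kerL] at hy
  have h4 : ∑ k ∈ Finset.range K, ‖(fun g => p n (cd (x : WW H) k g) : GG k → H)‖ ^ 2 ≤
      ‖(y : WW H)‖ ^ 2 := by
    refine le_trans (Finset.sum_le_sum ?_) (sum_le (y : WW H) (Finset.range K))
    intro k hk
    rw [Finset.mem_range] at hk
    have h5 : (fun g => p n (cd (x : WW H) k g) : GG k → H) =
        fun g => p n (cd (y : WW H) k g) := by
      funext g
      have h6 := hy k (by omega) g
      have h7 : cd ((x - y : EE J σ τ) : WW H) k g = cd (x : WW H) k g - cd (y : WW H) k g := by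
        simp [cd]
      rw [h7, map_sub, sub_eq_zero] at h6
      exact h6
    rw [h5]
    exact pow_le_pow_left₀ (norm_nonneg _) (pi_norm_le (p n) (hp1 n) _) 2
  have h8 := Real.sqrt_le_sqrt h4
  rw [Real.sqrt_sq (norm_nonneg _)] at h8
  have h9 : ‖(x : WW H)‖ - ε ≤ ‖(y : WW H)‖ := hn.le.trans h8
  exact h9

end

end PE76

open PE76 in
/-- row PE -/
theorem st_PE (hHP : ST_HP) (hWK : ST_WK) : ST_PE := by
  intro H _ _ _ _ J σ τ
  obtain ⟨p, hfin, hp1, hsym, hnm, hmn, hlim⟩ := hHP H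
  refine ⟨fun n => LinearMap.ker (Lm p J σ τ n), ?_, ?_, ?_, ?_, ?_⟩
  · intro n m hle x hx
    change x ∈ LinearMap.ker (Lm p J σ τ m) at hx
    change x ∈ LinearMap.ker (Lm p J σ τ n)
    rw [mem_kerL] at hx ⊢
    intro k hk g
    rw [← hnm n m _ hle, hx k (hk.trans_le hle) g, map_zero]
  · intro n
    have h : (LinearMap.ker (Lm p J σ τ n) : Set (EE J σ τ)) = Lm p J σ τ n ⁻¹' {0} := by
      ext x
      simp
    rw [h]
    exact isClosed_singleton.preimage (Lm_cont p J σ τ n)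
  · intro n
    have := hfin n
    exact LinearEquiv.finiteDimensional (Lm p J σ τ n).quotKerEquivRange.symm
  · exact norming p hp1 hlim J σ τ
  · intro x C hC hq
    have hC0 : 0 ≤ C := (norm_nonneg _).trans (hC 0)
    -- the coordinates
    have hcoord : ∀ k (g : GG k), ∃ y : H,
        (∀ z, Tendsto (fun j => inner ℝ z (cd (x j : WW H) k g)) atTop (𝓝 (inner ℝ z y))) ∧
        ∀ m, Tendsto (fun j => p m (cd (x j : WW H) k g)) atTop (𝓝 (p m y)) := by
      intro k g
      apply hWK H p hp1 hsym hnm hmn hlim (fun j => cd (x j : WW H) k g) C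
        (fun j => (norm_cd_le _ k g).trans (hC j))
      intro m
      obtain ⟨m', hm1, hkm⟩ : ∃ m', m ≤ m' ∧ k < m' :=
        ⟨max m (k + 1), le_max_left _ _, by omega⟩
      obtain ⟨v, hv⟩ := hq m'
      have hcont : Continuous ((LinearMap.ker (Lm p J σ τ m')).liftQ (Lm p J σ τ m') le_rfl) := by
        have h := (Submodule.isOpenQuotientMap_mkQ (LinearMap.ker (Lm p J σ τ m')))
        rw [h.isQuotientMap.continuous_iff]
        exact Lm_cont p J σ τ m'
      have h1 := (hcont.tendsto v).comp hv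
      have h2 := (tendsto_pi_nhds.1 (tendsto_pi_nhds.1 h1 ⟨k, hkm⟩) g)
      have h3 := (continuous_subtype_val.tendsto _).comp h2
      have h4 := ((p m).continuous.tendsto _).comp h3
      refine ⟨_, h4.congr ?_⟩
      intro j
      change p m (p m' (cd (x j : WW H) k g)) = p m (cd (x j : WW H) k g)
      exact hnm m m' _ hm1
    choose y hy1 hy2 using hcoord
    have hb : ∀ s : Finset ℕ, ∑ k ∈ s, ‖(y k : GG k → H)‖ ^ 2 ≤ C ^ 2 := by
      intro s
      have h1 : ∀ m, ∑ k ∈ s, ‖(fun g => p m (y k g) : GG k → H)‖ ^ 2 ≤ C ^ 2 := by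
        intro m
        have h2 : Tendsto (fun j => ∑ k ∈ s, ‖(fun g => p m (cd (x j : WW H) k g) : GG k → H)‖ ^ 2)
            atTop (𝓝 (∑ k ∈ s, ‖(fun g => p m (y k g) : GG k → H)‖ ^ 2)) := by
          apply tendsto_finsetSum
          intro k _
          apply Tendsto.pow
          apply Tendsto.norm
          rw [tendsto_pi_nhds]
          intro g
          exact hy2 k g m
        refine le_of_tendsto' h2 (fun j => ?_)
        calc ∑ k ∈ s, ‖(fun g => p m (cd (x j : WW H) k g) : GG k → H)‖ ^ 2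
            ≤ ∑ k ∈ s, ‖((x j : WW H) : ∀ k, GG k → H) k‖ ^ 2 := by
              apply Finset.sum_le_sum
              intro k _
              exact pow_le_pow_left₀ (norm_nonneg _) (pi_norm_le (p m) (hp1 m) _) 2
          _ ≤ ‖(x j : WW H)‖ ^ 2 := sum_le _ _
          _ ≤ C ^ 2 := pow_le_pow_left₀ (norm_nonneg _) (hC j) 2
      have h3 : Tendsto (fun m => ∑ k ∈ s, ‖(fun g => p m (y k g) : GG k → H)‖ ^ 2)
          atTop (𝓝 (∑ k ∈ s, ‖(y k : GG k → H)‖ ^ 2)) := by
        apply tendsto_finsetSum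
        intro k _
        apply Tendsto.pow
        apply Tendsto.norm
        rw [tendsto_pi_nhds]
        intro g
        exact hlim _
      exact le_of_tendsto' h3 h1
    have hmem : Memℓp (fun k => (y k : GG k → H)) 2 := by
      apply memℓp_gen' (C := C ^ 2)
      intro s
      simpa [ENNReal.toReal_ofNat] using hb s
    let Y : WW H := ⟨fun k => y k, hmem⟩
    have hcd : ∀ k g, cd Y k g = y k g := fun k g => rfl
    have hY : Y ∈ EE J σ τ := by
      intro k j
      apply ext_inner_left ℝ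
      intro z
      have hJ : ∀ (l : ℕ) (g : GG l), Tendsto
          (fun i => inner ℝ z (J l (((x i : WW H) : ∀ k, GG k → H) l g))) atTop
          (𝓝 (inner ℝ z (J l ((Y : ∀ k, GG k → H) l g)))) := by
        intro l g
        have h1 := hy1 l g ((ContinuousLinearMap.adjoint (J l)) z)
        simp only [ContinuousLinearMap.adjoint_inner_left] at h1
        exact h1
      have hA : Tendsto (fun i => inner ℝ z (((2 : ℝ) ^ (k + 2))⁻¹ •
          ∑ g, τ k j g • J k (((x i : WW H) : ∀ k, GG k → H) k g))) atTop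
          (𝓝 (inner ℝ z (((2 : ℝ) ^ (k + 2))⁻¹ •
          ∑ g, τ k j g • J k ((Y : ∀ k, GG k → H) k g)))) := by
        simp only [inner_smul_right, inner_sum]
        apply Tendsto.const_mul
        apply tendsto_finsetSum
        intro g _
        exact (hJ k g).const_mul _
      have hB : Tendsto (fun i => inner ℝ z (((2 : ℝ) ^ (k + 3))⁻¹ •
          ∑ g, σ (k + 1) j g • J (k + 1) (((x i : WW H) : ∀ k, GG k → H) (k + 1) g))) atTop
          (𝓝 (inner ℝ z (((2 : ℝ) ^ (k + 3))⁻¹ •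
          ∑ g, σ (k + 1) j g • J (k + 1) ((Y : ∀ k, GG k → H) (k + 1) g)))) := by
        simp only [inner_smul_right, inner_sum]
        apply Tendsto.const_mul
        apply tendsto_finsetSum
        intro g _
        exact (hJ (k + 1) g).const_mul _
      refine tendsto_nhds_unique hA (hB.congr ?_)
      intro i
      have := (x i).2 k j
      rw [this]
    refine ⟨⟨Y, hY⟩, fun m => ?_⟩
    obtain ⟨v, hv⟩ := hq m
    have hcont : Continuous ((LinearMap.ker (Lm p J σ τ m)).liftQ (Lm p J σ τ m) le_rfl) := by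
      have h := (Submodule.isOpenQuotientMap_mkQ (LinearMap.ker (Lm p J σ τ m)))
      rw [h.isQuotientMap.continuous_iff]
      exact Lm_cont p J σ τ m
    have h1 := (hcont.tendsto v).comp hv
    have h2 : Tendsto (fun j => Lm p J σ τ m (x j)) atTop (𝓝 (Lm p J σ τ m ⟨Y, hY⟩)) := by
      rw [tendsto_pi_nhds]
      intro k
      rw [tendsto_pi_nhds]
      intro g
      rw [tendsto_subtype_rng]
      exact hy2 k g m
    have h3 : (LinearMap.ker (Lm p J σ τ m)).liftQ (Lm p J σ τ m) le_rfl v =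
        (LinearMap.ker (Lm p J σ τ m)).liftQ (Lm p J σ τ m) le_rfl
          ((LinearMap.ker (Lm p J σ τ m)).mkQ ⟨Y, hY⟩) := by
      refine tendsto_nhds_unique h1 ?_
      exact h2
    have h4 : v = (LinearMap.ker (Lm p J σ τ m)).mkQ ⟨Y, hY⟩ := by
      have hinj : Function.Injective
          ((LinearMap.ker (Lm p J σ τ m)).liftQ (Lm p J σ τ m) le_rfl) := by
        rw [← LinearMap.ker_eq_bot, Submodule.ker_liftQ_eq_bot]
        exact le_rfl
      exact hinj h3
    rw [← h4]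
    exact hv

end Pool.Agent.Helper76.BQ
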