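import Pool.Agent.Helper31.BQ.Stmts3

/-! # Row YB (MP_04557e_an, sheet BE): the space of a null sequence -/

set_option autoImplicit false

namespace Pool.Agent.Helper76.BQ

open Filter Topology Pool.Agent.Helper31.BQ

universe u

namespace YB76

section abs
variable {Y E : Type u} [NormedAddCommGroup Y] [NormedSpace ℝ Y] [NormedAddCommGroup E]
  [NormedSpace ℝ E]

/-- finitely many functionals -/
noncomputable def DD (d : ℕ → (E →L[ℝ] ℝ)) (n : ℕ) : E →L[ℝ] (Fin n → ℝ) :=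
  ContinuousLinearMap.pi (fun i : Fin n => d i)

/-- finitely many functionals, on `Y` -/
noncomputable def LL (j : Y →L[ℝ] E) (d : ℕ → (E →L[ℝ] ℝ)) (n : ℕ) : Y →L[ℝ] (Fin n → ℝ) :=
  (DD d n).comp j

theorem LL_apply (j : Y →L[ℝ] E) (d : ℕ → (E →L[ℝ] ℝ)) (n : ℕ) (y : Y) (i : Fin n) :
    LL j d n y i = d i (j y) := rfl

/-- the subspaces -/
noncomputable def MM (j : Y →L[ℝ] E) (d : ℕ → (E →L[ℝ] ℝ)) (n : ℕ) : Submodule ℝ Y :=
  LinearMap.ker (LL j d n).toLinearMap

theorem mem_MM (j : Y →L[ℝ] E) (d : ℕ → (E →L[ℝ] ℝ)) (n : ℕ) (y : Y) :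
    y ∈ MM j d n ↔ ∀ i, i < n → d i (j y) = 0 := by
  unfold MM
  rw [LinearMap.mem_ker]
  constructor
  · intro h i hi
    exact congrFun h ⟨i, hi⟩
  · intro h
    funext i
    exact h i i.2

/-- the induced map on the quotient -/
noncomputable def LQ (j : Y →L[ℝ] E) (d : ℕ → (E →L[ℝ] ℝ)) (n : ℕ) :
    (Y ⧸ MM j d n) →ₗ[ℝ] (Fin n → ℝ) :=
  (MM j d n).liftQ (LL j d n).toLinearMap le_rfl

theorem LQ_mk (j : Y →L[ℝ] E) (d : ℕ → (E →L[ℝ] ℝ)) (n : ℕ) (y : Y) :
    LQ j d n ((MM j d n).mkQ y) = LL j d n y := rfl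

theorem LQ_cont (j : Y →L[ℝ] E) (d : ℕ → (E →L[ℝ] ℝ)) (n : ℕ) : Continuous (LQ j d n) := by
  rw [(Submodule.isOpenQuotientMap_mkQ (MM j d n)).isQuotientMap.continuous_iff]
  exact (LL j d n).continuous

theorem LQ_inj (j : Y →L[ℝ] E) (d : ℕ → (E →L[ℝ] ℝ)) (n : ℕ) :
    Function.Injective (LQ j d n) := by
  intro a b h
  obtain ⟨a, rfl⟩ := Submodule.Quotient.mk_surjective _ a
  obtain ⟨b, rfl⟩ := Submodule.Quotient.mk_surjective _ b
  have h1 : LL j d n a = LL j d n b := h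
  rw [Submodule.Quotient.eq]
  change LL j d n (a - b) = 0
  rw [map_sub, h1, sub_self]

theorem conv_fun (j : Y →L[ℝ] E) (d : ℕ → (E →L[ℝ] ℝ)) (x : ℕ → Y) (m : ℕ)
    (v : Y ⧸ MM j d m) (hv : Tendsto (fun k => (MM j d m).mkQ (x k)) atTop (𝓝 v)) :
    Tendsto (fun k => LL j d m (x k)) atTop (𝓝 (LQ j d m v)) :=
  ((LQ_cont j d m).tendsto v).comp hv

theorem main_abs (j : Y →L[ℝ] E) (d : ℕ → (E →L[ℝ] ℝ))
    (hd : ∀ y y' : Y, (∀ i, d i (j y) = d i (j y')) → y = y')
    (key : ∀ (x : ℕ → Y) (C C' : ℝ), C < C' → (∀ n, ‖x n‖ ≤ C) →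
      ∃ φ : ℕ → ℕ, StrictMono φ ∧ ∃ y : Y, ‖y‖ ≤ C' ∧
        Tendsto (fun n => j (x (φ n))) atTop (𝓝 (j y))) :
    Antitone (MM j d) ∧ PP Y (MM j d) ∧ JC (MM j d) j ∧
      ∀ T ∈ VM E (MM j d), ∃ T' ∈ FR E, ∀ z, (T : Y →L[ℝ] E) z = T' (j z) := by
  refine ⟨?_, ⟨?_, ?_, ?_, ?_⟩, ?_, ?_⟩
  · intro n m hnm y hy
    rw [mem_MM] at hy ⊢
    intro i hi
    exact hy i (hi.trans_le hnm)
  · intro n
    have h : (MM j d n : Set Y) = LL j d n ⁻¹' {0} := by
      ext x
      simp [MM]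
    rw [h]
    exact isClosed_singleton.preimage (LL j d n).continuous
  · intro n
    exact LinearEquiv.finiteDimensional (LL j d n).toLinearMap.quotKerEquivRange.symm
  · intro x ε hε
    by_contra hcon
    push Not at hcon
    choose y hy1 hy2 using hcon
    obtain ⟨φ, hφ, w, hw, hlim⟩ := key y (‖x‖ - ε) (‖x‖ - ε / 2) (by linarith)
      (fun n => (hy2 n).le)
    have h1 : w = x := by
      apply hd
      intro i
      have h2 : Tendsto (fun n => d i (j (y (φ n)))) atTop (𝓝 (d i (j w))) :=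
        ((d i).continuous.tendsto _).comp hlim
      have h3 : Tendsto (fun n => d i (j (y (φ n)))) atTop (𝓝 (d i (j x))) := by
        apply tendsto_const_nhds.congr'
        filter_upwards [eventually_gt_atTop i] with n hn
        have h4 := (mem_MM j d (φ n) _).1 (hy1 (φ n)) i (hn.trans_le (hφ.id_le n))
        rw [map_sub, map_sub, sub_eq_zero] at h4
        exact h4
      exact tendsto_nhds_unique h2 h3
    rw [h1] at hw
    linarith
  · intro x C hC hq
    obtain ⟨φ, hφ, w, hw, hlim⟩ := key x C (C + 1) (by linarith) hC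
    refine ⟨w, fun m => ?_⟩
    obtain ⟨v, hv⟩ := hq m
    have h1 := conv_fun j d x m v hv
    have h2 : Tendsto (fun k => LL j d m (x (φ k))) atTop (𝓝 (LL j d m w)) :=
      ((DD d m).continuous.tendsto _).comp hlim
    have h3 : LQ j d m v = LL j d m w := tendsto_nhds_unique (h1.comp hφ.tendsto_atTop) h2
    have h4 : v = (MM j d m).mkQ w := LQ_inj j d m h3
    rw [← h4]
    exact hv
  · intro x C y hC hq
    apply tendsto_of_subseq_tendsto
    intro ns hns
    obtain ⟨φ, hφ, w, hw, hlim⟩ := key (fun n => x (ns n)) C (C + 1) (by linarith)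
      (fun n => hC _)
    refine ⟨φ, ?_⟩
    have h1 : w = y := by
      apply hd
      intro i
      have h2 : Tendsto (fun n => d i (j (x (ns (φ n))))) atTop (𝓝 (d i (j w))) :=
        ((d i).continuous.tendsto _).comp hlim
      have h3 := conv_fun j d x (i + 1) _ (hq (i + 1))
      rw [LQ_mk] at h3
      have h4 := (tendsto_pi_nhds.1 h3) ⟨i, Nat.lt_succ_self i⟩
      have h5 := h4.comp (hns.comp hφ.tendsto_atTop)
      exact tendsto_nhds_unique h2 h5
    rw [h1] at hlim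
    exact hlim
  · rintro T ⟨m, hT⟩
    have h1 : LinearMap.ker (LL j d m).toLinearMap ≤ LinearMap.ker T.toLinearMap := by
      intro y hy
      exact hT y hy
    obtain ⟨S, hS⟩ := LinearMap.exists_extend
      (((LinearMap.ker (LL j d m).toLinearMap).liftQ T.toLinearMap h1) ∘ₗ
        (LL j d m).toLinearMap.quotKerEquivRange.symm.toLinearMap)
    refine ⟨(LinearMap.toContinuousLinearMap S).comp (DD d m), ?_, ?_⟩
    · change FiniteDimensional ℝ _
      have h2 : LinearMap.range ((LinearMap.toContinuousLinearMap S).comp (DD d m) :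
          E →ₗ[ℝ] E) ≤ LinearMap.range S := by
        rintro _ ⟨e, rfl⟩
        exact ⟨DD d m e, rfl⟩
      exact Submodule.finiteDimensional_of_le h2
    · intro z
      have h3 := LinearMap.congr_fun hS ⟨LL j d m z, ⟨z, rfl⟩⟩
      have h4 : (LL j d m).toLinearMap.quotKerEquivRange.symm ⟨LL j d m z, ⟨z, rfl⟩⟩ =
          (LinearMap.ker (LL j d m).toLinearMap).mkQ z := by
        rw [LinearEquiv.symm_apply_eq]
        rfl
      simp only [LinearMap.comp_apply, LinearEquiv.coe_coe] at h3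
      rw [h4] at h3
      exact h3.symm

end abs

/-- `ℓ^1` -/
abbrev A : Type u := lp (fun _ : ULift.{u} ℕ => ℝ) 1

theorem hsum (a : A.{u}) : HasSum (fun i => ‖a i‖) ‖a‖ := by
  have h := lp.hasSum_norm (p := 1) (by norm_num) a
  simpa using h

section conc
variable {E : Type u} [NormedAddCommGroup E] [NormedSpace ℝ E] [CompleteSpace E]

theorem summ (z : ℕ → E) (B : ℝ) (hz : ∀ n, ‖z n‖ ≤ B) (a : A.{u}) :
    Summable (fun i : ULift.{u} ℕ => a i • z i.down) := by
  apply Summable.of_norm_bounded (g := fun i => ‖a i‖ * B) ((hsum a).summable.mul_right B)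
  intro i
  rw [norm_smul]
  exact mul_le_mul_of_nonneg_left (hz _) (norm_nonneg _)

/-- the map `q` -/
noncomputable def q (z : ℕ → E) (B : ℝ) (hz : ∀ n, ‖z n‖ ≤ B) : A.{u} →L[ℝ] E :=
  LinearMap.mkContinuous
    { toFun := fun a => ∑' i : ULift.{u} ℕ, a i • z i.down
      map_add' := fun a b => by
        simp only [lp.coeFn_add, Pi.add_apply, add_smul]
        exact (summ z B hz a).tsum_add (summ z B hz b)
      map_smul' := fun c a => by
        simp only [lp.coeFn_smul, Pi.smul_apply, smul_eq_mul, mul_smul, RingHom.id_apply]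
        exact (summ z B hz a).tsum_const_smul c } B
    (fun a => by
      refine tsum_of_norm_bounded ((hsum a).mul_left B) ?_
      intro i
      rw [norm_smul, mul_comm]
      exact mul_le_mul_of_nonneg_right (hz _) (norm_nonneg _))

theorem q_apply (z : ℕ → E) (B : ℝ) (hz : ∀ n, ‖z n‖ ≤ B) (a : A.{u}) :
    q z B hz a = ∑' i : ULift.{u} ℕ, a i • z i.down := rfl

theorem q_bound (z : ℕ → E) (B : ℝ) (hz : ∀ n, ‖z n‖ ≤ B) (ε : ℝ) (N : ℕ)
    (hN : ∀ n, N ≤ n → ‖z n‖ ≤ ε) (hε : 0 ≤ ε) (hB : 0 ≤ B) (a : A.{u}) :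
    ‖q z B hz a‖ ≤ ∑ i ∈ Finset.range N, ‖a (ULift.up i)‖ * B + ε * ‖a‖ := by
  classical
  rw [q_apply]
  let s : Finset (ULift.{u} ℕ) := (Finset.range N).map ⟨ULift.up, ULift.up_injective⟩
  have hs : ∀ i : ULift.{u} ℕ, i ∈ s ↔ i.down < N := by
    intro i
    simp only [s, Finset.mem_map, Finset.mem_range, Function.Embedding.coeFn_mk]
    constructor
    · rintro ⟨n, hn, rfl⟩; exact hn
    · intro h; exact ⟨i.down, h, rfl⟩
  have h1 : HasSum (fun i : ULift.{u} ℕ => if i ∈ s then ‖a i‖ * B else 0)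
      (∑ i ∈ s, (if i ∈ s then ‖a i‖ * B else 0)) :=
    hasSum_sum_of_ne_finset_zero (fun i hi => if_neg hi)
  have h2 : ∑ i ∈ s, (if i ∈ s then ‖a i‖ * B else 0) =
      ∑ i ∈ Finset.range N, ‖a (ULift.up i)‖ * B := by
    rw [Finset.sum_congr rfl (fun i hi => if_pos hi)]
    simp only [s, Finset.sum_map, Function.Embedding.coeFn_mk]
  rw [h2] at h1
  refine tsum_of_norm_bounded (h1.add ((hsum a).mul_left ε)) ?_
  intro i
  rw [norm_smul]
  by_cases hi : i ∈ s
  · rw [if_pos hi]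
    have := mul_le_mul_of_nonneg_left (hz i.down) (norm_nonneg (a i))
    have h3 : 0 ≤ ε * ‖a i‖ := by positivity
    linarith
  · rw [if_neg hi, zero_add, mul_comm]
    rw [hs, not_lt] at hi
    exact mul_le_mul_of_nonneg_right (hN _ hi) (norm_nonneg _)

theorem comp1 (z : ℕ → E) (B : ℝ) (hz : ∀ n, ‖z n‖ ≤ B) (hz0 : Tendsto z atTop (𝓝 0))
    (a : ℕ → A.{u}) (C : ℝ) (ha : ∀ n, ‖a n‖ ≤ C) :
    ∃ φ : ℕ → ℕ, StrictMono φ ∧ ∃ b : A.{u}, ‖b‖ ≤ C ∧
      Tendsto (fun n => q z B hz (a (φ n))) atTop (𝓝 (q z B hz b)) := by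
  have hC : 0 ≤ C := (norm_nonneg _).trans (ha 0)
  have hB : 0 ≤ B := (norm_nonneg _).trans (hz 0)
  have hcomp : IsCompact (Set.pi Set.univ (fun _ : ULift.{u} ℕ => Set.Icc (-C) C)) :=
    isCompact_univ_pi (fun _ => isCompact_Icc)
  obtain ⟨b, -, φ, hφ, hlim⟩ := hcomp.tendsto_subseq (x := fun n => (a n : ULift.{u} ℕ → ℝ)) (by
    intro n i _
    have h := (lp.norm_apply_le_norm (by norm_num) (a n) i).trans (ha n)
    rw [Real.norm_eq_abs, abs_le] at h
    exact h)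
  have hc : ∀ i, Tendsto (fun n => a (φ n) i) atTop (𝓝 (b i)) := tendsto_pi_nhds.1 hlim
  have hs : ∀ s : Finset (ULift.{u} ℕ), ∑ i ∈ s, ‖b i‖ ≤ C := by
    intro s
    have h1 : Tendsto (fun n => ∑ i ∈ s, ‖a (φ n) i‖) atTop (𝓝 (∑ i ∈ s, ‖b i‖)) :=
      tendsto_finsetSum _ (fun i _ => (hc i).norm)
    refine le_of_tendsto' h1 (fun n => ?_)
    exact (sum_le_hasSum s (fun i _ => norm_nonneg _) (hsum (a (φ n)))).trans (ha _)
  have hmem : Memℓp b 1 := by
    apply memℓp_gen' (C := C)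
    intro s
    simpa using hs s
  let b' : A.{u} := ⟨b, hmem⟩
  have hb' : ‖b'‖ ≤ C := hasSum_le_of_sum_le (hsum b') hs
  refine ⟨φ, hφ, b', hb', ?_⟩
  rw [Metric.tendsto_atTop]
  intro η hη
  set ε : ℝ := η / (2 * C + 2) with hε
  have hε0 : 0 < ε := by positivity
  obtain ⟨N, hN⟩ := (Metric.tendsto_atTop.1 hz0) ε hε0
  have hN' : ∀ n, N ≤ n → ‖z n‖ ≤ ε := by
    intro n hn
    have := hN n hn
    rw [dist_zero_right] at this
    exact this.le
  have h1 : Tendsto (fun n => ∑ i ∈ Finset.range N,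
      ‖(a (φ n) - b') (ULift.up i)‖ * B) atTop (𝓝 (∑ i ∈ Finset.range N, 0 * B)) := by
    apply tendsto_finsetSum
    intro i _
    apply Tendsto.mul_const
    have h2 := (hc (ULift.up i)).sub_const (b (ULift.up i))
    rw [sub_self] at h2
    have h3 := h2.norm
    rw [norm_zero] at h3
    exact h3
  simp only [zero_mul, Finset.sum_const_zero] at h1
  obtain ⟨n0, hn0⟩ := (Metric.tendsto_atTop.1 h1) ε hε0
  refine ⟨n0, fun n hn => ?_⟩
  have h4 := hn0 n hn
  rw [Real.dist_eq, sub_zero] at h4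
  have h5 := (abs_lt.1 h4).2
  rw [dist_eq_norm, ← map_sub]
  have h6 := q_bound z B hz ε N hN' hε0.le hB (a (φ n) - b')
  have h7 : ‖a (φ n) - b'‖ ≤ 2 * C := by
    refine (norm_sub_le _ _).trans ?_
    linarith [ha (φ n)]
  have h8 : ε * ‖a (φ n) - b'‖ ≤ ε * (2 * C) := mul_le_mul_of_nonneg_left h7 hε0.le
  have h9 : ε * (2 * C + 2) = η := by
    rw [hε]
    field_simp
  nlinarith

theorem sep (z : ℕ → E) (B : ℝ) (hz : ∀ n, ‖z n‖ ≤ B) :
    ∃ d : ℕ → (E →L[ℝ] ℝ), ∀ a b : A.{u},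
      (∀ i, d i (q z B hz a) = d i (q z B hz b)) → q z B hz a = q z B hz b := by
  have h1 : TopologicalSpace.IsSeparable (Submodule.span ℝ (Set.range z) : Set E) :=
    (Set.countable_range z).isSeparable.span
  obtain ⟨c, hc, hcl⟩ := h1.closure
  have hne : c.Nonempty := by
    rw [← closure_nonempty_iff]
    exact ⟨0, hcl (subset_closure (Submodule.zero_mem _))⟩
  obtain ⟨v, rfl⟩ := hc.exists_eq_range hne
  choose d hd1 hd2 using fun i => exists_dual_vector'' ℝ (v i)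
  refine ⟨d, fun a b hab => ?_⟩
  set w := q z B hz (a - b) with hw
  have hwd : ∀ i, d i w = 0 := by
    intro i
    rw [hw, map_sub, map_sub, hab i, sub_self]
  have hmem : w ∈ closure (Set.range v) := by
    apply hcl
    refine mem_closure_of_tendsto (summ z B hz (a - b)).hasSum
      (Eventually.of_forall fun s => ?_)
    exact Submodule.sum_mem _ fun i _ =>
      Submodule.smul_mem _ _ (Submodule.subset_span ⟨_, rfl⟩)
  have hw0 : w = 0 := by
    by_contra hne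
    have hpos : 0 < ‖w‖ := norm_pos_iff.2 hne
    obtain ⟨_, ⟨i, rfl⟩, hi⟩ := Metric.mem_closure_iff.1 hmem (‖w‖ / 2) (by positivity)
    rw [dist_eq_norm] at hi
    have h2 : ‖v i‖ ≤ ‖w - v i‖ := by
      have h3 : d i (v i) = ‖v i‖ := by simpa using hd2 i
      have h4 : d i (v i - w) = ‖v i‖ := by rw [map_sub, hwd i, sub_zero, h3]
      rw [← h4]
      calc d i (v i - w) ≤ ‖d i (v i - w)‖ := Real.le_norm_self _
        _ ≤ ‖d i‖ * ‖v i - w‖ := (d i).le_opNorm _
        _ ≤ 1 * ‖v i - w‖ := mul_le_mul_of_nonneg_right (hd1 i) (norm_nonneg _)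
        _ = ‖w - v i‖ := by rw [one_mul, norm_sub_rev]
    have h5 : ‖w‖ ≤ ‖w - v i‖ + ‖v i‖ := by
      have := norm_add_le (w - v i) (v i)
      rwa [sub_add_cancel] at this
    linarith
  rw [hw, map_sub, sub_eq_zero] at hw0
  exact hw0

end conc

end YB76

open YB76 in
/-- row YB -/
theorem st_YB : ST_YB.{u} := by
  intro E _ _ _ x hx
  set r : ℕ → ℝ := fun n => Real.sqrt (‖x n‖ + 1 / ((n : ℝ) + 1)) with hr
  have hs0 : ∀ n : ℕ, 0 < ‖x n‖ + 1 / ((n : ℝ) + 1) := fun n => by positivity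
  have hr0 : ∀ n, 0 < r n := fun n => Real.sqrt_pos.2 (hs0 n)
  have hr1 : Tendsto r atTop (𝓝 0) := by
    have h1 : Tendsto (fun n : ℕ => ‖x n‖ + 1 / ((n : ℝ) + 1)) atTop (𝓝 0) := by
      have := (hx.norm).add (tendsto_one_div_add_atTop_nhds_zero_nat (𝕜 := ℝ))
      simpa using this
    have h2 := h1.sqrt
    rw [Real.sqrt_zero] at h2
    exact h2
  set z : ℕ → E := fun n => (r n)⁻¹ • x n with hz
  have hz1 : ∀ n, ‖z n‖ ≤ r n := by
    intro n
    have h1 : ‖z n‖ = (r n)⁻¹ * ‖x n‖ := by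
      rw [hz]
      simp only [norm_smul, norm_inv, Real.norm_of_nonneg (hr0 n).le]
    rw [h1, inv_mul_le_iff₀ (hr0 n), ← sq]
    have h2 : r n ^ 2 = ‖x n‖ + 1 / ((n : ℝ) + 1) := Real.sq_sqrt (hs0 n).le
    rw [h2]
    have : 0 < 1 / ((n : ℝ) + 1) := by positivity
    linarith
  have hz0 : Tendsto z atTop (𝓝 0) := squeeze_zero_norm hz1 hr1
  obtain ⟨B, hB⟩ : ∃ B, ∀ n, ‖z n‖ ≤ B := by
    obtain ⟨B, hB⟩ := hz0.norm.bddAbove_range
    exact ⟨B, fun n => hB ⟨n, rfl⟩⟩
  obtain ⟨d, hd⟩ := sep.{u} z B hB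
  let K : Submodule ℝ A.{u} := LinearMap.ker (q z B hB).toLinearMap
  have hK : IsClosed (K : Set A.{u}) := (q z B hB).isClosed_ker
  have hcont : Continuous (K.liftQ (q z B hB).toLinearMap le_rfl) := by
    rw [(Submodule.isOpenQuotientMap_mkQ K).isQuotientMap.continuous_iff]
    exact (q z B hB).continuous
  let j : (A.{u} ⧸ K) →L[ℝ] E := ⟨K.liftQ (q z B hB).toLinearMap le_rfl, hcont⟩
  have hj : ∀ a : A.{u}, j (Submodule.Quotient.mk a) = q z B hB a := fun a => rfl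
  have hinj : ∀ a b : A.{u}, q z B hB a = q z B hB b →
      (Submodule.Quotient.mk a : A.{u} ⧸ K) = Submodule.Quotient.mk b := by
    intro a b hab
    rw [Submodule.Quotient.eq]
    change q z B hB (a - b) = 0
    rw [map_sub, hab, sub_self]
  have hmain := main_abs j d (by
      intro y y' h
      obtain ⟨a, rfl⟩ := Submodule.Quotient.mk_surjective K y
      obtain ⟨b, rfl⟩ := Submodule.Quotient.mk_surjective K y'
      exact hinj a b (hd a b h)) (by
      intro y C C' hCC hy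
      have hl : ∀ n, ∃ a : A.{u}, (Submodule.Quotient.mk a : A.{u} ⧸ K) = y n ∧ ‖a‖ ≤ C' := by
        intro n
        obtain ⟨a, ha1, ha2⟩ := Submodule.Quotient.norm_mk_lt (y n) (sub_pos.2 hCC)
        exact ⟨a, ha1, by linarith [hy n]⟩
      choose a ha1 ha2 using hl
      obtain ⟨φ, hφ, b, hb, hlim⟩ := comp1 z B hB hz0 a C' ha2
      refine ⟨φ, hφ, Submodule.Quotient.mk b, (Submodule.Quotient.norm_mk_le K b).trans hb, ?_⟩
      rw [hj]
      refine hlim.congr (fun n => ?_)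
      rw [← ha1, hj])
  refine ⟨A.{u} ⧸ K, inferInstance, inferInstance, MM j d, j,
    fun n => Submodule.Quotient.mk (lp.single 1 (ULift.up n) (r n)), inferInstance,
    hmain.1, hmain.2.1, hmain.2.2.1, ?_, ?_, hmain.2.2.2⟩
  · refine squeeze_zero_norm (fun n => ?_) hr1
    refine (Submodule.Quotient.norm_mk_le K _).trans (le_of_eq ?_)
    rw [lp.norm_single (by norm_num), Real.norm_of_nonneg (hr0 n).le]
  · intro n
    rw [hj, q_apply, tsum_eq_single (ULift.up n)]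
    · rw [lp.single_apply_self]
      simp only [hz]
      rw [smul_smul, mul_inv_cancel₀ (hr0 n).ne', one_smul]
    · intro i hi
      rw [lp.single_apply_ne _ _ _ hi, zero_smul]

end Pool.Agent.Helper76.BQ
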